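import Pool.Agent.Run7.h207.GC.Iface
import Pool.Agent.H162R2.AG.G1

/-!
# Project GC (helper207), pieces BLOCK and INNER (helper704)
-/

set_option autoImplicit false
set_option linter.all false

namespace Pool.Agent.Run7.h704.GC

open Finset
open Pool.Agent.H162R2.AG Pool.Agent.H162R2.Sparse
open Pool.Agent.Run7.h207.GC

/-! ### INNER -/

/-- the number of the subsets with large intersection -/
theorem card_bad' (h1 : T_P1) {n : ℕ} (A B : Finset (Fin n)) (a t : ℝ) (ha : 0 < a) (ht : 0 ≤ t)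
    (hA : ((B ∩ A).card : ℝ) ≤ a) (P : Finset (Fin n) → Prop) [DecidablePred P]
    (hP : ∀ s, P s → ((B ∩ A).card : ℝ) / 2 + t ≤ ((s ∩ A).card : ℝ)) :
    ((B.powerset.filter P).card : ℝ) ≤ 2 * Real.exp (-(2 * t ^ 2 / a)) * 2 ^ B.card := by
  classical
  have h2 := h1 ↥B (fun c => if c.1 ∈ A then (1 : ℝ) else 0) a (2 * t) ha (by linarith) (by
    have h3 : ∀ c : ↥B, (if c.1 ∈ A then (1 : ℝ) else 0) ^ 2 = if c.1 ∈ A then (1 : ℝ) else 0 := by
      intro c
      split_ifs <;> norm_num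
    simp only [h3]
    rw [Finset.sum_coe_sort B (fun c => (if c ∈ A then (1 : ℝ) else 0))]
    rw [Finset.sum_ite_mem, Finset.sum_const, nsmul_eq_mul, mul_one]
    exact hA)
  rw [Fintype.card_coe] at h2
  have h3 : -(2 * t) ^ 2 / (2 * a) = -(2 * t ^ 2 / a) := by
    field_simp
  rw [h3] at h2
  refine le_trans ?_ h2
  unfold cnt
  rw [Nat.cast_le]
  refine Finset.card_le_card_of_injOn (fun s => fun c : ↥B => decide (c.1 ∈ s)) ?_ ?_
  · intro s hs
    simp only [coe_filter, mem_powerset, Set.mem_ofPred_eq] at hs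
    simp only [coe_filter, mem_univ, true_and, Set.mem_ofPred_eq]
    rw [G1P.sum_signs B A s hs.1]
    have h4 := hP s hs.2
    rw [abs_of_nonneg (by linarith)]
    linarith
  · intro s hs s' hs' h
    simp only [coe_filter, mem_powerset, Set.mem_ofPred_eq] at hs hs'
    ext c
    by_cases hc : c ∈ B
    · have := congrFun h ⟨c, hc⟩
      simp only [decide_eq_decide] at this
      exact this
    · constructor
      · intro h'
        exact absurd (hs.1 h') hc
      · intro h'
        exact absurd (hs'.1 h') hc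

theorem inner1 (h0 : T_G0) (h1 : T_P1) {n : ℕ} (A : Finset (Fin n)) (v : Fin n) (hv : v ∈ A) (t : ℝ)
    (ht : 0 ≤ t) :
    cnt (fun G : SimpleGraph (Fin n) => (A.card : ℝ) / 2 + t ≤ ((nb G v ∩ A).card : ℝ)) ≤
      2 * Real.exp (-(2 * t ^ 2 / A.card)) * Fintype.card (SimpleGraph (Fin n)) := by
  classical
  set B : Finset (Fin n) := ({v} : Finset (Fin n))ᶜ with hB
  have hpos : 0 < A.card := Finset.card_pos.2 ⟨v, hv⟩
  have hBA : B ∩ A = A.erase v := by
    ext c
    simp [hB, Finset.mem_erase]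
  have hBAc : ((B ∩ A).card : ℝ) = (A.card : ℝ) - 1 := by
    rw [hBA, Finset.card_erase_of_mem hv, Nat.cast_sub (by omega)]
    simp
  have h2 := card_bad' h1 A B (A.card : ℝ) t (by exact_mod_cast hpos) ht (by rw [hBAc]; linarith)
    (fun s => (A.card : ℝ) / 2 + t ≤ ((s ∩ A).card : ℝ)) (fun s hs => by
      rw [hBAc]
      linarith)
  have h3 := h0 n {v} (fun _ s => (A.card : ℝ) / 2 + t ≤ ((s ∩ A).card : ℝ))
  rw [← hB] at h3
  simp only [Finset.mem_singleton, forall_eq, Finset.card_singleton, pow_one,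
    Finset.prod_singleton] at h3
  have h4 : ∀ G : SimpleGraph (Fin n), nb G v \ {v} = nb G v := by
    intro G
    rw [Finset.sdiff_singleton_eq_erase]
    apply Finset.erase_eq_of_notMem
    rw [mem_nb]
    exact G.loopless.irrefl v
  simp only [h4] at h3
  have h7 : (0 : ℝ) < 2 ^ B.card := by positivity
  refine le_of_mul_le_mul_right ?_ h7
  rw [h3]
  have h9 : (0 : ℝ) ≤ Fintype.card (SimpleGraph (Fin n)) := by positivity
  calc _ ≤ Fintype.card (SimpleGraph (Fin n)) *
        (2 * Real.exp (-(2 * t ^ 2 / A.card)) * 2 ^ B.card) := by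
        refine mul_le_mul_of_nonneg_left ?_ h9
        refine le_trans (le_of_eq ?_) h2
        congr!
    _ = _ := by ring

theorem t_INNER' (h0 : T_G0) (h1 : T_P1) : J_INNER := by
  intro n A t ht
  refine (cnt_exists_le A (fun v (H : SimpleGraph (Fin n)) =>
    (A.card : ℝ) / 2 + t ≤ ((nb H v ∩ A).card : ℝ))).trans ?_
  refine (sum_le_sum fun v hv => inner1 h0 h1 A v hv t ht).trans (le_of_eq ?_)
  rw [sum_const, nsmul_eq_mul]
  ring

theorem t_INNER : J_INNER := t_INNER' G0 P1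

/-! ### BLOCK -/

/-- the graphs without success in a block -/
theorem block1 (h0 : T_G0) {n : ℕ} (A B : Finset (Fin n)) (hBA : B ⊆ A) (P : Finset (Fin n) → Prop)
    (ε : ℝ) (hε1 : ε ≤ 1)
    (hP : ε * 2 ^ (Aᶜ).card ≤ cnt (fun s : Finset (Fin n) => s ⊆ Aᶜ ∧ P s)) :
    cnt (fun H : SimpleGraph (Fin n) => ∀ v ∈ B, ¬ P (nb H v \ A)) ≤
      (1 - ε) ^ B.card * Fintype.card (SimpleGraph (Fin n)) := by
  classical
  have h1 := h0 n A (fun v s => v ∈ B → ¬ P s)
  have e1 : ∀ H : SimpleGraph (Fin n), (∀ v ∈ A, v ∈ B → ¬ P (nb H v \ A)) ↔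
      ∀ v ∈ B, ¬ P (nb H v \ A) := fun H =>
    ⟨fun h v hv => h v (hBA hv) hv, fun h v _ hv => h v hv⟩
  simp only [e1] at h1
  -- the number of the subsets without success
  have h2 : (((Aᶜ).powerset.filter fun s => ¬ P s).card : ℝ) ≤ (1 - ε) * 2 ^ (Aᶜ).card := by
    have h3 := Finset.card_filter_add_card_filter_not (s := (Aᶜ).powerset) (fun s => P s)
    rw [Finset.card_powerset] at h3
    have h4 : cnt (fun s : Finset (Fin n) => s ⊆ Aᶜ ∧ P s) =
        (((Aᶜ).powerset.filter fun s => P s).card : ℝ) := by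
      rw [cnt_eq_card]
      congr 2
      ext s
      simp
    rw [h4] at hP
    have h5 : (((Aᶜ).powerset.filter fun s => P s).card : ℝ) +
        (((Aᶜ).powerset.filter fun s => ¬ P s).card : ℝ) = 2 ^ (Aᶜ).card := by
      exact_mod_cast h3
    linarith
  have hprod : ∏ v ∈ A, (((Aᶜ).powerset.filter (fun s => v ∈ B → ¬ P s)).card : ℝ) ≤
      (1 - ε) ^ B.card * (2 ^ (Aᶜ).card) ^ A.card := by
    have e2 : ∏ v ∈ A, (((Aᶜ).powerset.filter (fun s => v ∈ B → ¬ P s)).card : ℝ) ≤
        ∏ v ∈ A, ((if v ∈ B then (1 - ε) else 1) * 2 ^ (Aᶜ).card) := by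
      refine prod_le_prod (fun v _ => by positivity) fun v _ => ?_
      by_cases hv : v ∈ B
      · rw [if_pos hv]
        refine le_trans (le_of_eq ?_) h2
        congr 2
        ext s
        simp [hv]
      · rw [if_neg hv, one_mul]
        have : ((Aᶜ).powerset.filter (fun s => v ∈ B → ¬ P s)).card ≤ (Aᶜ).powerset.card :=
          card_filter_le _ _
        rw [card_powerset] at this
        exact_mod_cast this
    refine e2.trans (le_of_eq ?_)
    rw [prod_mul_distrib, prod_const, Finset.prod_ite_mem, inter_eq_right.2 hBA, prod_const]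
  have h7 : (0 : ℝ) < (2 ^ (Aᶜ).card) ^ A.card := by positivity
  refine le_of_mul_le_mul_right ?_ h7
  have h9 : (0 : ℝ) ≤ Fintype.card (SimpleGraph (Fin n)) := by positivity
  calc cnt (fun H : SimpleGraph (Fin n) => ∀ v ∈ B, ¬ P (nb H v \ A)) * (2 ^ (Aᶜ).card) ^ A.card
      = Fintype.card (SimpleGraph (Fin n)) *
        ∏ v ∈ A, (((Aᶜ).powerset.filter (fun s => v ∈ B → ¬ P s)).card : ℝ) := by
        rw [h1]
        congr!
    _ ≤ Fintype.card (SimpleGraph (Fin n)) * ((1 - ε) ^ B.card * (2 ^ (Aᶜ).card) ^ A.card) :=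
        mul_le_mul_of_nonneg_left hprod h9
    _ = _ := by ring

theorem t_BLOCK' (h0 : T_G0) : J_BLOCK := by
  classical
  intro n K b A i x y T ε hi hx hy hA hε0 hε1 hS
  set P : Finset (Fin n) → Prop := fun s => i ∈ s ∧ x ∉ s ∧ y ∉ s ∧ (s.card : ℝ) ≤ T with hP
  have hcard : Fintype.card {v // v ∈ A} = Fintype.card (Fin K × Fin b) := by
    rw [Fintype.card_coe, hA, Fintype.card_prod, Fintype.card_fin, Fintype.card_fin]
  let e : Fin K × Fin b ≃ {v // v ∈ A} := (Fintype.equivOfCardEq hcard).symm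
  let Bl : Fin K → Finset (Fin n) := fun k => univ.image fun j : Fin b => (e (k, j)).1
  have hBl : ∀ k, Bl k ⊆ A := by
    intro k v hv
    obtain ⟨j, _, rfl⟩ := mem_image.1 hv
    exact (e (k, j)).2
  have hBc : ∀ k, (Bl k).card = b := by
    intro k
    have : Function.Injective fun j : Fin b => (e (k, j)).1 := by
      intro j j' h
      have := e.injective (Subtype.ext h)
      exact (Prod.mk.inj this).2
    rw [card_image_of_injective _ this, card_univ, Fintype.card_fin]
  have hiff : ∀ (H : SimpleGraph (Fin n)) (v : Fin n), v ∈ A →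
      ((H.Adj v i ∧ ¬ H.Adj v x ∧ ¬ H.Adj v y ∧ ((nb H v \ A).card : ℝ) ≤ T) ↔ P (nb H v \ A)) := by
    intro H v hv
    simp only [hP, mem_sdiff, mem_nb, hi, hx, hy, not_false_eq_true, and_true]
  have h1 : cnt (fun H : SimpleGraph (Fin n) =>
      cnt (fun v : Fin n => v ∈ A ∧ H.Adj v i ∧ ¬ H.Adj v x ∧ ¬ H.Adj v y ∧
      ((nb H v \ A).card : ℝ) ≤ T) < K) ≤
      cnt (fun H : SimpleGraph (Fin n) => ∃ k ∈ (univ : Finset (Fin K)), ∀ v ∈ Bl k,
        ¬ P (nb H v \ A)) := by
    refine cnt_mono fun H hH => ?_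
    by_contra hcon
    push Not at hcon
    choose g hg1 hg2 using fun k => hcon k (mem_univ k)
    have hginj : Function.Injective g := by
      intro k k' hkk
      obtain ⟨j, _, hj⟩ := mem_image.1 (hg1 k)
      obtain ⟨j', _, hj'⟩ := mem_image.1 (hg1 k')
      have h3 : (e (k, j)).1 = (e (k', j')).1 := by rw [hj, hj', hkk]
      have := e.injective (Subtype.ext h3)
      exact (Prod.mk.inj this).1
    have h4 : (K : ℝ) ≤ cnt (fun v : Fin n => v ∈ A ∧ H.Adj v i ∧ ¬ H.Adj v x ∧ ¬ H.Adj v y ∧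
      ((nb H v \ A).card : ℝ) ≤ T) := by
      rw [cnt_eq_card]
      have h5 : (univ.image g).card ≤ (univ.filter fun v : Fin n => v ∈ A ∧ H.Adj v i ∧ ¬ H.Adj v x ∧
          ¬ H.Adj v y ∧ ((nb H v \ A).card : ℝ) ≤ T).card := by
        refine card_le_card fun v hv => ?_
        obtain ⟨k, _, rfl⟩ := mem_image.1 hv
        rw [mem_filter]
        have hA' := hBl k (hg1 k)
        exact ⟨mem_univ _, hA', (hiff H _ hA').2 (hg2 k)⟩
      rw [card_image_of_injective _ hginj, card_univ, Fintype.card_fin] at h5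
      exact_mod_cast h5
    linarith
  refine h1.trans ?_
  refine (cnt_exists_le univ (fun (k : Fin K) (H : SimpleGraph (Fin n)) => ∀ v ∈ Bl k,
    ¬ P (nb H v \ A))).trans ?_
  have h2 : ∀ k ∈ (univ : Finset (Fin K)), cnt (fun H : SimpleGraph (Fin n) => ∀ v ∈ Bl k,
      ¬ P (nb H v \ A)) ≤ (1 - ε) ^ b * Fintype.card (SimpleGraph (Fin n)) := by
    intro k _
    have := block1 h0 A (Bl k) (hBl k) P ε hε1 hS
    rwa [hBc k] at this
  refine (sum_le_sum h2).trans (le_of_eq ?_)
  rw [sum_const, nsmul_eq_mul, card_univ, Fintype.card_fin]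
  ring

theorem t_BLOCK : J_BLOCK := t_BLOCK' G0

end Pool.Agent.Run7.h704.GC
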